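import Pool.Agent.Helper29.MX.St
import Pool.Agent.Helper36.AM.Inp
import Pool.Agent.Helper89.RAT.Eta
import Pool.Agent.Helper26.MT.Zw

/-! MAX from SELECTION and EXIT: the maximal number `v` of unit directions of the types. -/

set_option autoImplicit false

namespace Pool.Agent.Helper36.MX

open Finset Filter Topology Matrix Pool.Agent.Helper69.RK Pool.Agent.Helper31.EC Pool.Agent.Helper31.EC.Sp
open Pool.Agent.Helper40.EL Pool.Agent.Helper89.LX Pool.Agent.Helper84.MT
open Pool.Agent.Helper49.MD Pool.Agent.Helper36.AM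
open Pool.Agent.Helper29.MX

noncomputable section

variable {S T : Sp} {M : ℕ} {E : ℕ → ℕ} {ι : Type}

/-- digits of the point as limits of entropies of the cells -/
theorem ul_cell {m : ℕ} (y : S.VV m) (r : ℝ) : UB (fun k => H (fc (Setoid.ker (y.cellv r k)) : FL (S.F k)) / (S.F k).n) ∧
    ul (fun k => H (fc (Setoid.ker (y.cellv r k)) : FL (S.F k)) / (S.F k).n) = H (y.dg r) := by
  have e1 : S.rt (y.bdd r).toInf.1 S.tr = fun k => H (fc (Setoid.ker (y.cellv r k)) : FL (S.F k)) / (S.F k).n := by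
    funext k
    rw [H_fc]
    show (S.F k).e (Setoid.ker (y.cellv r k)) (⊤ ⊓ (S.F k).Z) / (S.F k).n = _
    rw [top_inf_eq]
  have e0 : y.dg r = cl (y.bdd r).toInf := io_eq (y.bdd r)
  constructor
  · rw [← e1]
    exact UB_rt (S := S) (y.bdd r).toInf S.tr
  · rw [← e1, ← H_cl, ← e0]

/-- the windows of a type have at most `M` directions -/
theorem Ud_le {v : ℕ} {s : MSys S M E ι} {j : ι} (hu : Ud v s j) : v ≤ M := by
  have hG : 0 < ul (S.pr fun _ _ => True) := by
    have e1 : ul (S.pr fun _ _ => True) = 1 := ul_eq ((Typ_iff _).mp Typ_true)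
    rw [e1]
    exact one_pos
  have h1 := hu S (Pj.id S) (fun _ _ => True) hG 0 1 le_rfl zero_le_one le_rfl
  rw [sub_zero, mul_one] at h1
  obtain ⟨h2, h3⟩ := ul_cell (s.im (Pj.id S) (fun _ _ => True) hG).Q 1
  have h4 : ul (fun k => h (fc (Setoid.ker ((s.im (Pj.id S) (fun _ _ => True) hG).Q.cellv 1 k)))
      (((s.im (Pj.id S) (fun _ _ => True) hG).lf j).win 0 k) / ((Sp.im (Pj.id S) fun _ _ => True).F k).n) ≤ M := by
    refine le_trans (ul_mono ?_ h2 (Eventually.of_forall fun k => ?_)) ?_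
    · refine UB.sandwich (UB_const 0) h2 (Eventually.of_forall fun k => ?_) (Eventually.of_forall fun k => ?_)
      · exact div_nonneg (h_nonneg _ _) (FSp.pos _).le
      · exact div_le_div_of_nonneg_right (h_le_H _ _) (FSp.pos _).le
    · exact div_le_div_of_nonneg_right (h_le_H _ _) (FSp.pos _).le
    · rw [h3]
      have h5 := (s.im (Pj.id S) (fun _ _ => True) hG).Q.H_dg_le (r := 1) zero_le_one
      rwa [mul_one] at h5
  exact_mod_cast h1.trans h4

/-- no condition for `v = 0` -/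
theorem Ud_zero (s : MSys S M E ι) (j : ι) : Ud 0 s j := by
  intro T p A hA c c' _ _ _
  rw [Nat.cast_zero, zero_mul]
  obtain ⟨h2, -⟩ := ul_cell (s.im p A hA).Q c'
  refine const_le_ul (UB.sandwich (UB_const 0) h2 (Eventually.of_forall fun k => ?_) (Eventually.of_forall fun k => ?_))
    (Eventually.of_forall fun k => ?_)
  · exact div_nonneg (h_nonneg _ _) (FSp.pos _).le
  · exact div_le_div_of_nonneg_right (h_le_H _ _) (FSp.pos _).le
  · exact div_nonneg (h_nonneg _ _) (FSp.pos _).le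

/-- systems without types are not deficient -/
theorem volO_empty [IsEmpty ι] [Finite ι] [Countable ι] (s : MSys S (M + 1) E ι) : volO s 0 ≤ HQ s 0 := by
  have e : s.cnd 0 = s.cnd 1 := by
    funext i
    rcases i with _ | i
    · rfl
    · exact isEmptyElim i
  have h1 : s.vol 1 0 = s.vol 1 1 := by
    obtain ⟨x, hx⟩ := s.exists_can 1 0
    rw [← s.vol_eq hx.1]
    apply s.vol_eq
    rw [← e]
    exact hx.1
  calc volO s 0 ≤ s.vol 1 0 := volO_le s 1 0
    _ = s.vol 1 1 := h1
    _ ≤ 0 := Pool.Agent.Helper89.RAT.vol_one_le s le_rfl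
    _ ≤ HQ s 0 := H_nonneg _

/-- the class with `v = 0` -/
theorem sto_zero {A : MCl (M + 1)} (h : STO (M + 1) (Cv A 0)) : STO (M + 1) A := by
  intro S g r s hs
  rcases Nat.eq_zero_or_pos r with h0 | h0
  · subst h0
    exact volO_empty s
  · exact h S g r s ⟨hs, ⟨⟨0, h0⟩⟩, fun i => Ud_zero s i⟩

/-- nothing has more than `M` unit directions -/
theorem sto_large {A : MCl M} {v : ℕ} (h : M < v) : STO M (Cv A v) := by
  intro S g r s hs
  obtain ⟨-, ⟨i⟩, hu⟩ := hs
  exact absurd (Ud_le (hu i)) (by omega)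

/-- THE MAXIMAL `v` -/
theorem exists_v {A : MCl (M + 1)} (h : ¬ STO (M + 1) A) : ∃ v, STO (M + 1) (Cv A (v + 1)) ∧ ¬ STO (M + 1) (Cv A v) := by
  classical
  by_contra hc
  push Not at hc
  have h1 : ∀ j : ℕ, STO (M + 1) (Cv A (M + 2 - j)) := by
    intro j
    induction j with
    | zero => exact sto_large (by omega)
    | succ j ih =>
      rcases Nat.lt_or_ge j (M + 2) with h2 | h2
      · have h3 : M + 2 - j = M + 2 - (j + 1) + 1 := by omega
        rw [h3] at ih
        exact hc _ ih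
      · have h3 : M + 2 - (j + 1) = M + 2 - j := by omega
        rw [h3]
        exact ih
  have h2 := h1 (M + 2)
  rw [Nat.sub_self] at h2
  exact h (sto_zero h2)

/-- **MAX FROM SELECTION AND EXIT** -/
theorem max_of (hS : SELP M) (hE : EXITP M) (Cl Cl' : MCl (M + 1)) : MAX okM M Cl Cl' := by
  intro hok hst hn
  obtain ⟨A, C, D, hC, hEn, hD, hA⟩ := hok hst hn
  obtain ⟨v, h1, h2⟩ := exists_v hA
  obtain ⟨m, g, r, w, Y, hY⟩ := hS A C Cl' D hC hEn hD hst v h1 h2
  obtain ⟨g', r', ρ, TT, hT⟩ := hE _ hst g r w Y hY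
  exact ⟨g', r', w, ρ, TT, hT.cl_mono fun S g r s hs => hD.le w m S g r s hs⟩

end

end Pool.Agent.Helper36.MX
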